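import Pool.Agent.Lib.MP_eeed5c_co_Z.ZB
import Pool.Agent.Lib.MP_eeed5c_co_D.FX

/-!
# The structure theorem holds
-/

set_option autoImplicit false

namespace Pool.Agent.Lib.MP_eeed5c_coZ

open Finset Pool.Agent.Lib.MP_eeed5c_co Pool.Agent.Lib.MP_eeed5c_coT

theorem blocks_holds : Blocks := fun _ _ _ _ _ _ hV hreg hk1 hkn h6 hm hq hr hF =>
  Pool.Agent.Lib.MP_eeed5c_coD.blocks hV hreg hk1 hkn h6 hm hq hr rfl hF

end Pool.Agent.Lib.MP_eeed5c_coZ
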