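import Pool.Agent.Lib.MP_eeed5c_co_A.AD
import Pool.Agent.Lib.MP_eeed5c_co_U.TJ
import Pool.Agent.Lib.MP_eeed5c_co_X.XI

/-!
# The absolute theorem, from the structure theorem for graphs with a small gap
-/

set_option autoImplicit false

namespace Pool.Agent.Lib.MP_eeed5c_coZ

open Finset Pool.Agent.Lib.MP_eeed5c_co Pool.Agent.Lib.MP_eeed5c_coT

/-- The structure theorem for graphs with a small gap (library D). -/
def Blocks : Prop := ∀ (q r k : ℕ) (V : Type) [Fintype V] (G : SimpleGraph V),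
    Fintype.card V = 2 * (q * r) → Reg G r → 1 ≤ k → k < q * r → q * r ≤ 6 * k →
    10 ^ 42 ≤ q * r - k → q ≤ 5 * (q * r - k) ^ 2 → (q * r - k) ^ 20 ≤ r →
    q * Real.log ((Lp r).eval (T r q (k - 1) / T r q k)) -
      Real.log ((mp G).eval (T r q (k - 1) / T r q k)) < 1 / (((q * r - k : ℕ) : ℝ)) ^ 80 →
    ∃ c : V → Fin q × Fin 2, Pool.Agent.Lib.MP_eeed5c_coX.Cells r c ∧
      (q * r - k) ^ 9 * (Pool.Agent.Lib.MP_eeed5c_coX.Xs G c).card ≤ r

theorem ZA_log {m : ℕ} (hm : 10 ^ 42 ≤ m) : 96 ≤ Real.log m := by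
  have h1 : Real.exp 96 ≤ 10 ^ 42 := by
    have h2 : Real.exp 96 = Real.exp 1 ^ 96 := by
      rw [← Real.exp_nat_mul]
      norm_num
    have h3 : Real.exp 1 ≤ 2.7182818286 := Real.exp_one_lt_d9.le
    rw [h2]
    calc Real.exp 1 ^ 96 ≤ 2.7182818286 ^ 96 :=
          pow_le_pow_left₀ (Real.exp_pos 1).le h3 96
      _ ≤ 10 ^ 42 := by norm_num
  have h4 : (10 : ℝ) ^ 42 ≤ m := by exact_mod_cast hm
  have h5 : (0 : ℝ) < m := lt_of_lt_of_le (by norm_num) h4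
  rw [Real.le_log_iff_exp_le h5]
  exact h1.trans h4

theorem ZA_pow {t : ℝ} (ht : 96 ≤ t) : 1000000000000000000000 * t ^ 5 ≤ Real.exp t := by
  have h0 : (0 : ℝ) ≤ t := by linarith
  have h1 := Real.pow_div_factorial_le_exp t h0 60
  refine le_trans ?_ h1
  have h2 : (96 : ℝ) ^ 55 ≤ t ^ 55 := pow_le_pow_left₀ (by norm_num) ht 55
  have h3 : (1000000000000000000000 : ℝ) * ((Nat.factorial 60 : ℕ) : ℝ) ≤ 96 ^ 55 := by
    norm_num [Nat.factorial]
  rw [le_div_iff₀ (by positivity)]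
  have h4 : t ^ 60 = t ^ 5 * t ^ 55 := by ring
  rw [h4]
  have h5 : (0 : ℝ) ≤ t ^ 5 := by positivity
  calc 1000000000000000000000 * t ^ 5 * ((Nat.factorial 60 : ℕ) : ℝ)
      = t ^ 5 * (1000000000000000000000 * ((Nat.factorial 60 : ℕ) : ℝ)) := by ring
    _ ≤ t ^ 5 * t ^ 55 := mul_le_mul_of_nonneg_left (h3.trans h2) h5

theorem ZA_num1 {q r m : ℕ} (hm : 10 ^ 42 ≤ m) (hq : q ≤ 5 * m ^ 2) (hr1 : 1 ≤ r)
    (hr : r ≤ m ^ 20) : 23000000000 * Pool.Agent.Lib.MP_eeed5c_coM.Lq q r ^ 5 ≤ (m : ℝ) := by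
  have hl := ZA_log hm
  have hmR : (10 : ℝ) ^ 42 ≤ m := by exact_mod_cast hm
  have hm0 : (0 : ℝ) < m := lt_of_lt_of_le (by norm_num) hmR
  obtain ⟨t, ht⟩ : ∃ t, t = Real.log m := ⟨_, rfl⟩
  rw [← ht] at hl
  have het : Real.exp t = m := by rw [ht, Real.exp_log hm0]
  have hrR : (1 : ℝ) ≤ r := by exact_mod_cast hr1
  have hr0 : (0 : ℝ) < r := by linarith
  have hrt : Real.log r ≤ 20 * t := by
    have h1 : (r : ℝ) ≤ (m : ℝ) ^ 20 := by exact_mod_cast hr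
    have h2 := Real.log_le_log hr0 h1
    rw [Real.log_pow, ← ht] at h2
    exact_mod_cast h2
  have hqr : Real.log ((q : ℝ) * r + 1) ≤ 23 * t := by
    have h1 : (r : ℝ) ≤ (m : ℝ) ^ 20 := by exact_mod_cast hr
    have h2 : (q : ℝ) ≤ 5 * (m : ℝ) ^ 2 := by exact_mod_cast hq
    have h3 : (q : ℝ) * r + 1 ≤ (m : ℝ) ^ 23 := by
      have h4 : (q : ℝ) * r ≤ 5 * (m : ℝ) ^ 2 * (m : ℝ) ^ 20 :=
        mul_le_mul h2 h1 hr0.le (by positivity)
      have h5 : (1 : ℝ) ≤ (m : ℝ) ^ 22 := one_le_pow₀ (by linarith)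
      have h6 : (m : ℝ) ^ 23 = m * (m : ℝ) ^ 22 := by ring
      have h7 : 5 * (m : ℝ) ^ 2 * (m : ℝ) ^ 20 = 5 * (m : ℝ) ^ 22 := by ring
      rw [h6]
      rw [h7] at h4
      nlinarith
    have h8 : (0 : ℝ) < (q : ℝ) * r + 1 := by positivity
    have h9 := Real.log_le_log h8 h3
    rw [Real.log_pow, ← ht] at h9
    exact_mod_cast h9
  have hqr0 : 0 ≤ Real.log ((q : ℝ) * r + 1) := Real.log_nonneg (by
    have : (0 : ℝ) ≤ (q : ℝ) * r := by positivity
    linarith)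
  have hL3 : Real.log (7 + 6 * Real.log ((q : ℝ) * r + 1)) ≤ t := by
    rw [ht]
    refine Real.log_le_log (by linarith) ?_
    have h1 : 1 + t ≤ Real.exp t := by linarith [Real.add_one_le_exp t]
    have h2 : 1000000000000000000000 * t ^ 5 ≤ Real.exp t := ZA_pow hl
    have h3 : t ≤ t ^ 5 := by
      have h4 : (1 : ℝ) ≤ t ^ 4 := one_le_pow₀ (by linarith)
      have h5 : t ^ 5 = t * t ^ 4 := by ring
      rw [h5]
      nlinarith
    rw [het] at h2
    nlinarith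
  have hr00 : 0 ≤ Real.log r := Real.log_nonneg hrR
  have hL30 : 0 ≤ Real.log (7 + 6 * Real.log ((q : ℝ) * r + 1)) := Real.log_nonneg (by linarith)
  have hL : Pool.Agent.Lib.MP_eeed5c_coM.Lq q r ≤ 62 * t := by
    unfold Pool.Agent.Lib.MP_eeed5c_coM.Lq
    linarith
  have hL0 : 0 ≤ Pool.Agent.Lib.MP_eeed5c_coM.Lq q r := by
    unfold Pool.Agent.Lib.MP_eeed5c_coM.Lq
    linarith
  have h5 := pow_le_pow_left₀ hL0 hL 5
  have h6 : (62 * t) ^ 5 = 916132832 * t ^ 5 := by ring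
  rw [h6] at h5
  have h7 := ZA_pow hl
  rw [het] at h7
  have h8 : 0 ≤ t ^ 5 := by positivity
  nlinarith

theorem ZA_num2 {m : ℕ} (hm : 10 ^ 42 ≤ m) :
    23000000000 * (14 + 3 / 2 * (((80 : ℕ) : ℝ) + 2) * Real.log m) ^ 5 ≤ (m : ℝ) := by
  have hl := ZA_log hm
  have hmR : (10 : ℝ) ^ 42 ≤ m := by exact_mod_cast hm
  have hm0 : (0 : ℝ) < m := lt_of_lt_of_le (by norm_num) hmR
  obtain ⟨t, ht⟩ : ∃ t, t = Real.log m := ⟨_, rfl⟩
  rw [← ht] at hl ⊢
  have het : Real.exp t = m := by rw [ht, Real.exp_log hm0]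
  have h1 : 14 + 3 / 2 * (((80 : ℕ) : ℝ) + 2) * t ≤ 124 * t := by
    push_cast
    linarith
  have h0 : 0 ≤ 14 + 3 / 2 * (((80 : ℕ) : ℝ) + 2) * t := by
    push_cast
    linarith
  have h5 := pow_le_pow_left₀ h0 h1 5
  have h6 : (124 * t) ^ 5 = 29316250624 * t ^ 5 := by ring
  rw [h6] at h5
  have h7 := ZA_pow hl
  rw [het] at h7
  have h8 : 0 ≤ t ^ 5 := by positivity
  nlinarith

/-- The inequality for all graphs, all `q`, all `r` and all `k ≤ q r - 10^42`. -/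
theorem abs_mid (hB : Blocks) {q r k : ℕ} {V : Type} [Fintype V] {G : SimpleGraph V}
    (hV : Fintype.card V = 2 * (q * r)) (hreg : Reg G r) (hm : 10 ^ 42 ≤ q * r - k) :
    (mats G k).card ≤ (mats (KK q r) k).card := by
  rcases small_or (k := k) hV hreg with h | ⟨hk1, hkn, h6, hr2, hq1⟩
  · exact h
  have hlt : k < q * r := by omega
  obtain ⟨m, hmm⟩ : ∃ m, m = q * r - k := ⟨_, rfl⟩
  have hmR : (m : ℝ) = (q : ℝ) * r - k := by
    rw [hmm, Nat.cast_sub hkn]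
    push_cast
    ring
  rw [← hmm] at hm
  by_cases hq4 : q ≤ 4 * (m + 1) ^ 2
  swap
  · refine Pool.Agent.Lib.MP_eeed5c_coU.main_top hV hreg hkn ?_
    rw [← hmm]
    nlinarith
  have hq5 : q ≤ 5 * m ^ 2 := by
    refine hq4.trans ?_
    have h10 : 10 ≤ m := le_trans (by norm_num) hm
    nlinarith
  by_cases hr20 : m ^ 20 ≤ r
  swap
  · refine Pool.Agent.Lib.MP_eeed5c_coM.main_mid hV hreg ?_
    rw [← hmR]
    exact ZA_num1 hm hq5 (by omega) (not_le.1 hr20).le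
  by_cases hF : q * Real.log ((Lp r).eval (T r q (k - 1) / T r q k)) -
      Real.log ((mp G).eval (T r q (k - 1) / T r q k)) < 1 / (m : ℝ) ^ 80
  · rcases Nat.lt_or_ge q 2 with hq2 | hq2
    · have hq : q = 1 := by omega
      subst hq
      rw [one_mul] at hV
      exact one_block hV hreg k (by omega)
    have hF' := hF
    rw [hmm] at hF' hm hq5 hr20
    obtain ⟨c, hc, hX⟩ := hB q r k V G hV hreg hk1 hlt h6 hm hq5 hr20 hF'
    rw [← hmm] at hX hm hr20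
    have hnear := Pool.Agent.Lib.MP_eeed5c_coX.near (G := G) (k := k) hc hreg hq2 hkn h6 ?_
    · rw [← card_mats_KK] at hnear
      exact_mod_cast hnear
    · rw [← hmR]
      have hXR : (m : ℝ) ^ 9 * ((Pool.Agent.Lib.MP_eeed5c_coX.Xs G c).card : ℝ) ≤ r := by
        exact_mod_cast hX
      refine le_trans (mul_le_mul_of_nonneg_right ?_ (Nat.cast_nonneg _)) hXR
      have hm1 : (1000000 : ℝ) ≤ m := by
        have : (1000000 : ℕ) ≤ m := le_trans (by norm_num) hm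
        exact_mod_cast this
      have hq2R : (1 : ℝ) ≤ q := by
        have : (2 : ℝ) ≤ q := by exact_mod_cast hq2
        linarith
      have h1 : (m : ℝ) / q ≤ m := div_le_self (by linarith) hq2R
      have h2 : (m : ℝ) * m ≤ (m : ℝ) ^ 9 := by
        have h3 : (1 : ℝ) ≤ (m : ℝ) ^ 7 := one_le_pow₀ (by linarith)
        have h4 : (m : ℝ) ^ 9 = m * m * (m : ℝ) ^ 7 := by ring
        rw [h4]
        nlinarith
      nlinarith
  · refine Pool.Agent.Lib.MP_eeed5c_coA.main_abs (C := 80) hV hreg (by omega) hq1 hk1 h6 hlt ?_ ?_ ?_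
    · rw [← hmm]
      exact hq4
    · rw [← hmR]
      exact not_lt.1 hF
    · rw [← hmR]
      exact ZA_num2 hm

end Pool.Agent.Lib.MP_eeed5c_coZ
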