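import Pool.Agent.Lib.MP_eeed5c_co_Z.ZA

/-!
# All but finitely many pairs
-/

set_option autoImplicit false

namespace Pool.Agent.Lib.MP_eeed5c_coZ

open Finset Pool.Agent.Lib.MP_eeed5c_co Pool.Agent.Lib.MP_eeed5c_coT

/-- The corner: bounded `q`, bounded `q r - k`, large `r` (library K). -/
def Corner : Prop := ∀ q₀ m₀ : ℕ, ∃ r₀ : ℕ, ∀ (q r k : ℕ) (V : Type) [Fintype V]
    (G : SimpleGraph V), Fintype.card V = 2 * (q * r) → Reg G r → r₀ ≤ r → q ≤ q₀ → k ≤ q * r →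
    q * r ≤ k + m₀ → (mats G k).card ≤ (mats (KK q r) k).card

/-- The inequality for all graphs and all `k` when `q` is at least an absolute constant. -/
theorem abs_q (hB : Blocks) {q r k : ℕ} {V : Type} [Fintype V] {G : SimpleGraph V}
    (hV : Fintype.card V = 2 * (q * r)) (hreg : Reg G r) (hq : 4 * 10 ^ 84 ≤ q) :
    (mats G k).card ≤ (mats (KK q r) k).card := by
  rcases small_or (k := k) hV hreg with h | ⟨_, hkn, _, _, _⟩
  · exact h
  by_cases hm : 10 ^ 42 ≤ q * r - k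
  · exact abs_mid hB hV hreg hm
  refine Pool.Agent.Lib.MP_eeed5c_coU.main_top hV hreg hkn ?_
  obtain ⟨m, hmm⟩ : ∃ m, m = q * r - k := ⟨_, rfl⟩
  rw [← hmm] at hm ⊢
  have h1 : m + 1 ≤ 10 ^ 42 := by omega
  have h2 : 2 * m + 1 ≤ 2 * 10 ^ 42 := by omega
  calc (2 * m + 1) ^ 2 ≤ (2 * 10 ^ 42) ^ 2 := Nat.pow_le_pow_left h2 2
    _ = 4 * 10 ^ 84 := by norm_num
    _ ≤ q + 1 := by omega

/-- The inequality for all graphs and all `k` for all but finitely many pairs `(q, r)`. -/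
theorem abs_all (hB : Blocks) (hC : Corner) : ∃ n₀ : ℕ, ∀ (q r k : ℕ) (V : Type) [Fintype V]
    (G : SimpleGraph V), Fintype.card V = 2 * (q * r) → Reg G r → n₀ ≤ q * r →
    (mats G k).card ≤ (mats (KK q r) k).card := by
  obtain ⟨r₀, hr₀⟩ := hC (4 * 10 ^ 84) (10 ^ 42)
  refine ⟨4 * 10 ^ 84 * r₀ + 1, fun q r k V _ G hV hreg hn => ?_⟩
  by_cases hq : 4 * 10 ^ 84 ≤ q
  · exact abs_q hB hV hreg hq
  by_cases hm : 10 ^ 42 ≤ q * r - k
  · exact abs_mid hB hV hreg hm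
  rcases small_or (k := k) hV hreg with h | ⟨_, hkn, _, _, _⟩
  · exact h
  refine hr₀ q r k V G hV hreg ?_ (not_le.1 hq).le hkn (by omega)
  by_contra hr
  have h1 : q * r ≤ 4 * 10 ^ 84 * r₀ := Nat.mul_le_mul (not_le.1 hq).le (not_le.1 hr).le
  omega

end Pool.Agent.Lib.MP_eeed5c_coZ
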